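import Pool.Agent.MP_e081a1_an.Short
import Pool.Agent.MP_e081a1_an.NotA

set_option autoImplicit false

open MeasureTheory
open scoped ENNReal

namespace Pool.Agent.Results.MP_e081a1_an.PonlVersusA

open Pool.Agent.MPe081a1

/-- For every exponent `1 < p < ∞` (and every nonzero real or complex coefficient space) the
`p`-operator norm localization property implies Yu's property A for bounded geometry metric spaces.
For `p = 1` every bounded geometry metric space has the `1`-operator norm localization property,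
while some bounded geometry metric space does not have property A. -/
theorem result :
    (∀ (p : ℝ≥0∞) [Fact (1 ≤ p)], p ≠ 1 → p ≠ ⊤ →
      ∀ (𝕜 : Type) [RCLike 𝕜] (E : Type*) [NormedAddCommGroup E] [NormedSpace 𝕜 E] [Nontrivial E]
        (X : Type*) [MetricSpace X] [MeasurableSpace X] [BorelSpace X],
        BoundedGeometry X → HasONL 𝕜 E p X → PropertyA X) ∧
    (∀ (𝕜 : Type) [RCLike 𝕜] (E : Type*) [NormedAddCommGroup E] [NormedSpace 𝕜 E] [Nontrivial E]
        (X : Type*) [MetricSpace X] [MeasurableSpace X] [BorelSpace X],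
        BoundedGeometry X → HasONL 𝕜 E 1 X) ∧
    (∃ (X : Type) (_ : MetricSpace X), BoundedGeometry X ∧ ¬ PropertyA X) := by
  refine ⟨?_, ?_, ?_⟩
  · intro p _ h1 htop 𝕜 _ E _ _ _ X _ _ _ hBG hO
    exact propertyA_of_ponl (𝕜 := 𝕜) (E := E) htop h1 hBG ((hasONL_iff p X).mp hO)
  · intro 𝕜 _ E _ _ _ X _ _ _ hBG
    exact (hasONL_iff 1 X).mpr (ponl_one hBG 𝕜 E)
  · exact ⟨Box, inferInstance, box_bg, box_not_A⟩

end Pool.Agent.Results.MP_e081a1_an.PonlVersusA
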